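import Pool.Agent.Lib.MP_e8016c.Defs
import Pool.Agent.Lib.MP_e8016c_th.Final

/-!
# The order of growth of the largest star addable to a clique (problem MP_e8016c)

`goodStars k` is the set of all `g` such that `K_k` and `K_k + K_{1,g}` are Ramsey-equivalent and
`gMax k` is its supremum, the number `g(k)` of the problem.
-/

namespace Pool.Agent.Results.MP_e8016c_co.ThetaQuadratic

open Pool.Agent.Lib.MP_e8016c

/-- `g(k)` exists for `k ≥ 4`, `g(k) ≤ k² - 3` for all `k ≥ 4`, `g(k) ≥ k² / 2^106` for all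
`k ≥ 2^2012`; in particular `g(k) = Θ(k²)`. -/
theorem result :
    (∀ k : ℕ, 4 ≤ k → IsGreatest (goodStars k) (gMax k) ∧ gMax k ≤ k ^ 2 - 3) ∧
    (∀ k : ℕ, 2 ^ 2012 ≤ k → k ^ 2 ≤ 2 ^ 106 * gMax k) ∧
    (fun k : ℕ => (gMax k : ℝ)) =Θ[Filter.atTop] (fun k : ℕ => (k : ℝ) ^ 2) := by
  have hup : ∀ k : ℕ, 4 ≤ k → gMax k ≤ k ^ 2 - 3 :=
    Pool.Agent.Lib.MP_e8016c_th.gMax_le_sharp
  have hlow : ∀ k : ℕ, 2 ^ 2012 ≤ k → k ^ 2 ≤ 2 ^ 106 * gMax k :=
    Pool.Agent.Lib.MP_e8016c_th.gMax_ge_theta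
  refine ⟨fun k hk => ⟨isGreatest_gMax k hk, hup k hk⟩, hlow, ?_, ?_⟩
  · apply Asymptotics.IsBigO.of_bound 1
    filter_upwards [Filter.eventually_ge_atTop 4] with k hk
    have h1 : gMax k ≤ k ^ 2 := (hup k hk).trans (Nat.sub_le _ _)
    have h2 : (gMax k : ℝ) ≤ (k : ℝ) ^ 2 := by exact_mod_cast h1
    rw [Real.norm_of_nonneg (by positivity), Real.norm_of_nonneg (by positivity), one_mul]
    exact h2
  · apply Asymptotics.IsBigO.of_bound (2 ^ 106)
    filter_upwards [Filter.eventually_ge_atTop (2 ^ 2012)] with k hk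
    have h1 := hlow k hk
    have h2 : (k : ℝ) ^ 2 ≤ 2 ^ 106 * (gMax k : ℝ) := by exact_mod_cast h1
    rw [Real.norm_of_nonneg (by positivity), Real.norm_of_nonneg (by positivity)]
    exact h2

end Pool.Agent.Results.MP_e8016c_co.ThetaQuadratic
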